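import Pool.Agent.Lib.MP_863a8d_al.IV.Final

/-!
# An interval at one: a criterion for amenable groups, and elementary amenable groups

`Pool.SpecDense.Walk G` is a symmetric finitely supported probability measure on `G` whose support
generates `G`, `W.Sp` is the spectrum of its Markov operator on `ℓ²(G)` (averaging over right
multiplication), and `Pool.SpecDense.Folner G` is the Folner condition (amenability).

* `Pool.SpecDense.Ell N ℓ`: `ℓ` is additive on the subgroup `N`, for every `n ∈ N` the numbers
  `ℓ (g⁻¹ n g)`, `g ∈ G`, are bounded, and there are a finite set `E ⊆ N` and `c > 0` such that every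
  `g ∈ G` has some `n ∈ E` with `|ℓ (g⁻¹ n g)| ≥ c`.
* `Pool.SpecDense.ElemAmen G`: `G` is elementary amenable, that is it belongs to every class of groups
  that contains the finite and the commutative groups and is closed under subgroups, quotients,
  extensions and directed unions.
-/

set_option autoImplicit false

namespace Pool.Agent.Results.MP_863a8d_al.IntervalAtOne

universe u

/-- Let `G` be an amenable group with a symmetric finitely supported generating probability measure.
Suppose that there are a normal subgroup `N` and a function `ℓ` with `Ell N ℓ`; this holds in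
particular (the second and third case, derived from the first) if some quotient of `G` has an element of
infinite order with a finite conjugacy class, or if `G` is infinite and elementary amenable. Then the
spectrum contains an interval `[1 - δ, 1]` with `δ > 0`, so it is not totally disconnected. -/
theorem result {G : Type u} [Group G] (hG : Pool.SpecDense.Folner G) (W : Pool.SpecDense.Walk G)
    (h : (∃ (N : Subgroup G) (ℓ : G → ℝ), N.Normal ∧ Pool.SpecDense.Ell N ℓ) ∨
      (∃ (H : Type u) (_ : Group H) (f : G →* H) (z : H), Function.Surjective f ∧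
        (∀ n : ℕ, 0 < n → z ^ n ≠ 1) ∧ (Set.range fun h : H => h * z * h⁻¹).Finite) ∨
      (Infinite G ∧ Pool.SpecDense.ElemAmen G)) :
    (∃ δ : ℝ, 0 < δ ∧ ∀ t : ℝ, 1 - δ ≤ t → t ≤ 1 → (t : ℂ) ∈ W.Sp) ∧
      ¬ IsTotallyDisconnected W.Sp := by
  have key : ∃ δ : ℝ, 0 < δ ∧ ∀ t : ℝ, 1 - δ ≤ t → t ≤ 1 → (t : ℂ) ∈ W.Sp := by
    rcases h with ⟨N, ℓ, hN, hℓ⟩ | ⟨H, hH, f, z, hf, hz, hfin⟩ | ⟨hinf, h⟩
    · exact Pool.SpecDense.interval_Sp W hG hℓ
    · exact Pool.SpecDense.interval_fc W hG f hf z hz hfin
    · exact Pool.SpecDense.interval_elemAmen W hG h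
  refine ⟨key, ?_⟩
  obtain ⟨δ, hδ, h1⟩ := key
  exact Pool.SpecDense.not_td hδ h1

end Pool.Agent.Results.MP_863a8d_al.IntervalAtOne
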