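import Pool.Agent.Lib.MP_863a8d_al.Main
import Pool.Agent.Lib.MP_863a8d_al.SpecSet

/-!
# The spectrum of a random walk on an infinite amenable group is asymptotically dense at one

`Pool.SpecDense.Walk G` is a symmetric finitely supported probability measure on `G` whose support
generates `G`, `W.Sp` is the spectrum of its Markov operator on `ℓ²(G)` (averaging over right
multiplication), and `Pool.SpecDense.Folner G` is the Folner condition (amenability).
-/

set_option autoImplicit false

namespace Pool.Agent.Results.MP_863a8d_al.RelGaps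

universe u

/-- For every infinite amenable group and every symmetric finitely supported generating probability
measure the relative size of the gaps of the spectrum near `1` tends to zero: for every `ε > 0` all
small `x > 0` have a point `1 - y` of the spectrum with `|y - x| ≤ ε x`. -/
theorem result {G : Type u} [Group G] [Infinite G] (hG : Pool.SpecDense.Folner G)
    (W : Pool.SpecDense.Walk G) :
    ∀ ε : ℝ, 0 < ε → ∃ δ : ℝ, 0 < δ ∧
      ∀ x : ℝ, 0 < x → x < δ → ∃ y : ℝ, ((1 - y : ℝ) : ℂ) ∈ W.Sp ∧ |y - x| ≤ ε * x := by
  intro ε hε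
  obtain ⟨δ, hδ, h⟩ := Pool.SpecDense.denseTop W hG ε hε
  refine ⟨δ, hδ, fun x hx hxδ => ?_⟩
  obtain ⟨y, hy, hyx⟩ := h x hx hxδ
  exact ⟨y, (W.mem_spec_iff y).1 hy, hyx⟩

end Pool.Agent.Results.MP_863a8d_al.RelGaps
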