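import Pool.Agent.Lib.MP_863a8d_al.Main
import Pool.Agent.Lib.MP_863a8d_al.SpecSet

/-!
# Spectra of amenable groups which are self-similar at one contain an interval

`Pool.SpecDense.Walk G` is a symmetric finitely supported probability measure on `G` whose support
generates `G`, `W.Sp` is the spectrum of its Markov operator on `ℓ²(G)` (averaging over right
multiplication), and `Pool.SpecDense.Folner G` is the Folner condition (amenability).
-/

set_option autoImplicit false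

namespace Pool.Agent.Results.MP_863a8d_al.SelfSimilar

universe u

/-- Let `G` be an infinite amenable group and suppose that near `1` the spectrum is invariant under
an expanding map: `F 0 = 0`, `F` is differentiable on `[0, δ₀]` with `|F' x - r| ≤ C x`, `r > 1`, and
`1 - x` is in the spectrum if and only if `1 - F x` is, for `0 ≤ x ≤ δ₀`. Then the spectrum contains
an interval `[1 - δ₁, 1]`. In particular it is not totally disconnected. -/
theorem result {G : Type u} [Group G] [Infinite G] (hG : Pool.SpecDense.Folner G)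
    (W : Pool.SpecDense.Walk G) (F F' : ℝ → ℝ) (r C δ₀ : ℝ) (hr : 1 < r) (hδ₀ : 0 < δ₀)
    (hF0 : F 0 = 0)
    (hF : ∀ x : ℝ, 0 ≤ x → x ≤ δ₀ → HasDerivWithinAt F (F' x) (Set.Icc 0 δ₀) x)
    (hF' : ∀ x : ℝ, 0 ≤ x → x ≤ δ₀ → |F' x - r| ≤ C * x)
    (hinv : ∀ x : ℝ, 0 ≤ x → x ≤ δ₀ →
      (((1 - x : ℝ) : ℂ) ∈ W.Sp ↔ ((1 - F x : ℝ) : ℂ) ∈ W.Sp)) :
    (∃ δ₁ : ℝ, 0 < δ₁ ∧ ∀ t : ℝ, 1 - δ₁ ≤ t → t ≤ 1 → (t : ℂ) ∈ W.Sp) ∧
      ¬ IsTotallyDisconnected W.Sp := by
  have h : ∃ δ₁ : ℝ, 0 < δ₁ ∧ ∀ t : ℝ, 1 - δ₁ ≤ t → t ≤ 1 → (t : ℂ) ∈ W.Sp := by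
    obtain ⟨δ₁, hδ₁, h⟩ := Pool.SpecDense.interval_of_selfSimilar_spec W hG hr hδ₀ hF0 hF hF'
      (fun x hx hx1 => by
        rw [W.mem_spec_iff, W.mem_spec_iff]
        exact hinv x hx hx1)
    refine ⟨δ₁, hδ₁, fun t ht ht1 => ?_⟩
    have h1 : (1 - t) ∈ W.spec := h ⟨by linarith, by linarith⟩
    rw [W.mem_spec_iff, sub_sub_cancel] at h1
    exact h1
  refine ⟨h, fun htd => ?_⟩
  obtain ⟨δ₁, hδ₁, h⟩ := h
  have hpre : IsPreconnected ((fun t : ℝ => (t : ℂ)) '' Set.Icc (1 - δ₁) 1) :=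
    isPreconnected_Icc.image _ Complex.continuous_ofReal.continuousOn
  have hsub := htd _ (by
    rintro _ ⟨t, ht, rfl⟩
    exact h t ht.1 ht.2) hpre
  have h3 := hsub (Set.mem_image_of_mem _ (Set.left_mem_Icc.2 (by linarith)))
    (Set.mem_image_of_mem _ (Set.right_mem_Icc.2 (by linarith)))
  have h4 : (1 - δ₁ : ℝ) = 1 := Complex.ofReal_injective h3
  linarith

end Pool.Agent.Results.MP_863a8d_al.SelfSimilar
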