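import Pool.Agent.Lib.MP_863a8d_al.SP.Main
import Pool.Agent.Lib.MP_863a8d_al.IV.Final

/-!
# The Cayley spectra of spinal groups

`Pool.SpecDense.Spinal B` is a structure that consists of finite groups `A 0, A 1, …`, surjective
homomorphisms `ω n : B → A (n + 1)` and letters `g n ≠ 1` in `A n`. For such `D`:

* `D.Pt` is the product of the `D.A n`, that is the boundary of the tree;
* `D.a x`, `x ∈ D.A 0`, is the rooted permutation: it multiplies the first letter by `x` on the left;
* `D.b z`, `z ∈ B`, is the directed permutation: if `u = (1, …, 1, g k, u (k+1), …)` then it multiplies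
  the letter `u (k+1)` by `ω k z` on the left, and it fixes all other sequences;
* `D.Gp` is the group of permutations of `D.Pt` generated by all `D.a x` and `D.b z` (a spinal group).

`Pool.SpecDense.Folner` is the Folner condition (amenability), `Pool.SpecDense.Walk` is a symmetric
finitely supported probability measure whose support generates the group, and `W.Sp` is the spectrum
of its Markov operator on `ℓ²` of the group.
-/

set_option autoImplicit false

namespace Pool.Agent.Results.MP_863a8d_al.SpinalSpectra

/-- Every spinal group (with regular root actions) is amenable, and the spectrum of its Cayley graph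
is a union of two intervals, for every measure `μ` that is constant `α` on `A 0` without the identity
and constant `β` on `B` without the identity (`α = β` is the simple random walk). -/
theorem result {B : Type} [Group B] [Fintype B] (D : Pool.SpecDense.Spinal B)
    (hker : ∀ z : B, (∀ n, D.ω n z = 1) → z = 1) :
    Pool.SpecDense.Folner D.Gp ∧ Function.Injective D.a ∧ Function.Injective D.b ∧
      ∀ α β : ℝ, 0 < α → 0 < β →
        ((Fintype.card (D.A 0) : ℝ) - 1) * α + ((Fintype.card B : ℝ) - 1) * β = 1 →
        ∃ W : Pool.SpecDense.Walk D.Gp,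
          (W.S : Set D.Gp) = (Set.range D.a ∪ Set.range D.b) \ {1} ∧
          (∀ x : D.A 0, x ≠ 1 → W.μ (D.a x) = α) ∧ (∀ z : B, z ≠ 1 → W.μ (D.b z) = β) ∧
          W.Sp = (fun t : ℝ => (t : ℂ)) ''
            (Set.Icc (-(α + β)) (1 - max (Fintype.card (D.A 0) * α) (Fintype.card B * β)) ∪
              Set.Icc (1 - min (Fintype.card (D.A 0) * α) (Fintype.card B * β)) 1) ∧
          ¬ IsTotallyDisconnected W.Sp := by
  refine ⟨D.folner, D.a_injective, D.b_injective hker, fun α β hα hβ hsum => ?_⟩
  obtain ⟨W, hS, h1, h2, h3⟩ := D.main hker hα hβ hsum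
  have hA : (0 : ℝ) < Fintype.card (D.A 0) := by exact_mod_cast Fintype.card_pos
  have hB : (0 : ℝ) < Fintype.card B := by exact_mod_cast Fintype.card_pos
  set P : ℝ := Fintype.card (D.A 0) * α with hP
  set Q : ℝ := Fintype.card B * β with hQ
  have hPpos : 0 < P := mul_pos hA hα
  have hQpos : 0 < Q := mul_pos hB hβ
  have hPQ : P + Q = 1 + (α + β) := by
    rw [hP, hQ]
    linarith
  have hSp : W.Sp = (fun t : ℝ => (t : ℂ)) ''
      (Set.Icc (-(α + β)) (1 - max P Q) ∪ Set.Icc (1 - min P Q) 1) := by
    ext c
    rw [h3 c, Set.mem_image]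
    constructor
    · rintro ⟨y, rfl, hy⟩
      refine ⟨1 - y, ?_, rfl⟩
      rcases hy with ⟨h4, h5, h6⟩ | ⟨h4, h5, h6⟩
      · right
        have := le_min h5 h6
        exact ⟨by linarith, by linarith⟩
      · left
        have := max_le h4 h5
        exact ⟨by linarith, by linarith⟩
    · rintro ⟨t, ht, rfl⟩
      refine ⟨1 - t, by rw [sub_sub_cancel], ?_⟩
      rcases ht with ⟨h4, h5⟩ | ⟨h4, h5⟩
      · right
        have h6 := le_max_left P Q
        have h7 := le_max_right P Q
        exact ⟨by linarith, by linarith, by linarith⟩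
      · left
        have h6 := min_le_left P Q
        have h7 := min_le_right P Q
        exact ⟨by linarith, by linarith, by linarith⟩
  refine ⟨W, hS, h1, h2, hSp, ?_⟩
  refine Pool.SpecDense.not_td (δ := min P Q) (lt_min hPpos hQpos) fun t ht ht1 => ?_
  rw [hSp]
  exact ⟨t, Or.inr ⟨ht, ht1⟩, rfl⟩

end Pool.Agent.Results.MP_863a8d_al.SpinalSpectra
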